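import Pool.Agent.helper36.HK.Spec

/-!
# Project fi, block HK, row HKP: the assembly
-/

namespace Pool.Agent.HK

open Finset Pool.Agent.FI

theorem HKP (hREL : REL_stmt) (hCPX : CPX_stmt) : HKP_stmt := by
  intro A B
  obtain ⟨C1, x1, hC1, h1⟩ := hREL A B
  obtain ⟨C2, x2, hC2, h2⟩ := hCPX A B
  refine ⟨max C1 C2, max (max x1 x2) 1, lt_max_of_lt_left hC1, ?_⟩
  intro x hx d hd hsq hdB ψ hψ j i hj hi κ hκ hU hT u hu
  have hx12 : max x1 x2 ≤ x := (le_max_left _ _).trans hx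
  have hx1 : x1 ≤ x := (le_max_left _ _).trans hx12
  have hx2 : x2 ≤ x := (le_max_right _ _).trans hx12
  have hx0 : 1 ≤ x := (le_max_right _ _).trans hx
  have hL : 0 ≤ Real.log x := Real.log_nonneg hx0
  have hLA : 0 ≤ Real.log x ^ A := pow_nonneg hL A
  by_cases hc : (∀ z, Nat.Coprime (nn z) d → ψ z ^ 2 = 1) ∧ κ = 0
  · obtain ⟨hr, rfl⟩ := hc
    refine (h1 x hx1 d hd hsq hdB ψ hψ hr j i hj hi hU hT u hu).trans ?_
    apply div_le_div_of_nonneg_right _ hLA
    exact mul_le_mul_of_nonneg_right (le_max_left _ _) (by linarith)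
  · refine (h2 x hx2 d hd hdB ψ hψ j i hj hi κ hκ hU hc u hu).trans ?_
    apply div_le_div_of_nonneg_right _ hLA
    exact mul_le_mul_of_nonneg_right (le_max_right _ _) (by linarith)

end Pool.Agent.HK
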