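import Pool.Agent.helper95.FI.SpecA

/-!
# Project fi (MP_ad8ced_nt), block HK: the prime number theorem for the Hecke characters of `ℚ(√2)`

RULES.  File `Pool/Agent/<seat>/HK/XX.lean`, `import Pool.Agent.helper36.HK.Spec`, `namespace Pool.Agent.HK`, `open Finset Pool.Agent.FI`,
`theorem XX (h1 : YY_stmt) ... : XX_stmt`, auxiliary lemmas prefixed `XX_` (private where possible).  Never change this file.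
If a statement is wrong tell helper36 at once.  No `convert` / `congr!`, no `native_decide`, no straight double quotes.
Other statements may be used as hypotheses only (also the rows FDE, FDU, THU, SIZ, FFC of helper95/FI/SpecA.lean).

Elements of `ℤ[√8]` are pairs `z = (a, l) ↔ a + l √8`.  A character `Ψ` of the odd elements modulo units (`UC d Ψ`) has
`rf Ψ n = ∑_{z ∈ Fd, nn z = n} Ψ z = ∑_{ab = n} g₁(a) g₂(b)` with `g₁, g₂ : ℕ → ℂ` COMPLETELY multiplicative (row TRI), so the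
Dirichlet series are products of two series over `ℕ`.  Everything is done for `Re s > 1`.
-/

set_option autoImplicit false

open Finset
open Pool.Agent.FI

noncomputable section

namespace Pool.Agent.HK

/-! ## Block L: completely multiplicative functions on `ℕ` -/

/-- completely multiplicative with values in the closed unit disc -/
def CM (g : ℕ → ℂ) : Prop :=
  g 0 = 0 ∧ g 1 = 1 ∧ (∀ m n : ℕ, g (m * n) = g m * g n) ∧ ∀ n : ℕ, ‖g n‖ ≤ 1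

/-- Dirichlet convolution -/
def cv (g h : ℕ → ℂ) (n : ℕ) : ℂ := ∑ d ∈ n.divisorsAntidiagonal, g d.1 * h d.2

/-- `∑ a(n) (log n)^j n^(-s)` -/
def DF (a : ℕ → ℂ) (j : ℕ) (s : ℂ) : ℂ := LSeries (fun n => a n * (Real.log n : ℂ) ^ j) s

/-- the coefficients of `-L'/L`, `L` the Dirichlet series of `cv g h` -/
def LG (g h : ℕ → ℂ) (n : ℕ) : ℂ := (ArithmeticFunction.vonMangoldt n : ℂ) * (g n + h n)

/-- the logarithm of the conductor -/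
def lf (M : ℝ) (s : ℂ) : ℝ := 1 + Real.log M + Real.log (2 + |s.im|)

/-- the local conditions: `k` trivial, `h` the square of `g`; split, inert, ramified primes -/
def Tri (k₁ k₂ g₁ g₂ h₁ h₂ : ℕ → ℂ) : Prop := ∀ p : ℕ, p.Prime →
  (k₁ p = 1 ∧ k₂ p = 1 ∧ ‖g₁ p‖ = 1 ∧ ‖g₂ p‖ = 1 ∧ h₁ p = g₁ p ^ 2 ∧ h₂ p = g₂ p ^ 2) ∨
  (k₁ p = 1 ∧ k₂ p = -1 ∧ g₁ p = 1 ∧ g₂ p = -1 ∧ h₁ p = 1 ∧ h₂ p = -1) ∨
  (k₁ p = 0 ∧ k₂ p = 0 ∧ g₁ p = 0 ∧ g₂ p = 0 ∧ h₁ p = 0 ∧ h₂ p = 0)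

/-- bounds for the summatory functions of `‖a‖` and of `a` -/
def Nb (C₀ M : ℝ) (a : ℕ → ℂ) : Prop :=
  (∀ y : ℕ, ∑ n ∈ Ioc 0 y, ‖a n‖ ≤ C₀ * y) ∧ ∀ y : ℕ, ‖∑ n ∈ Ioc 0 y, a n‖ ≤ M * √(y : ℝ)

/-- the data of a complex character -/
def Dat (C₀ M : ℝ) (k₁ k₂ g₁ g₂ h₁ h₂ : ℕ → ℂ) : Prop :=
  CM k₁ ∧ CM k₂ ∧ CM g₁ ∧ CM g₂ ∧ CM h₁ ∧ CM h₂ ∧ Tri k₁ k₂ g₁ g₂ h₁ h₂ ∧ 1 ≤ M ∧
  (∀ y : ℕ, ∑ n ∈ Ioc 0 y, ‖cv k₁ k₂ n‖ ≤ C₀ * y) ∧ Nb C₀ M (cv g₁ g₂) ∧ Nb C₀ M (cv h₁ h₂)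

/-- **LGC** (short, medium).  For `CM g`: `g log = (g Λ) * g` (Mathlib: `ArithmeticFunction.vonMangoldt_mul_zeta`, `Λ * ζ = log`; or
`ArithmeticFunction.vonMangoldt_sum`).  So `(g*h) log = (g log)*h + g*(h log) = (gΛ)*g*h + g*(hΛ)*h = ((g+h)Λ)*(g*h)`.  Work with
`ArithmeticFunction ℂ` (commutative ring) and `ArithmeticFunction.mul_apply`. -/
def LGC_stmt : Prop := ∀ g h : ℕ → ℂ, CM g → CM h → ∀ n : ℕ,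
  cv g h n * (Real.log n : ℂ) = ∑ d ∈ n.divisorsAntidiagonal, LG g h d.1 * cv g h d.2

/-- **RCS** (medium).  From LGC.  `‖cv g h n‖` is at most the number of divisors of `n`, all the series converge absolutely for `Re s > 1` (`LSeriesSummable` of a convolution of
summable series; times a power of the logarithm: compare `h95_summable_DD` and Mathlib `LSeries` / `logMul`).  Pointwise
`f log^(j+1) = ∑_{ab=n} LG(a) f(b) (log a + log b)^j = ∑_i C(j,i) (LG log^i) * (f log^(j-i))`, and the `LSeries` of a convolution is the product.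
Template: `DD_succ` in Pool/Agent/helper35/MT/AN3.lean. -/
def RCS_stmt : Prop := ∀ g h : ℕ → ℂ, CM g → CM h → ∀ (j : ℕ) (s : ℂ), 1 < s.re →
  DF (cv g h) (j + 1) s =
    ∑ i ∈ range (j + 1), (Nat.choose j i : ℂ) * DF (LG g h) i s * DF (cv g h) (j - i) s

/-- **TFO** (medium; 3-4-1).  `DF (cv g h) 0 s = LSeries g s * LSeries h s`, and `LSeries g s = exp (∑_p -log (1 - g(p) p^(-s)))`
(`EulerProduct.exp_tsum_primes_log_eq_tsum` for `f n = g n * n^(-s)` as `ℕ →*₀ ℂ`).  So the logarithm of the right side is a sum over the primes; for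
`0 ≤ a < 1`, `‖z‖ = 1`: `0 ≤ 3 Re(-log(1-a)) + 4 Re(-log(1-az)) + Re(-log(1-az²))` (private lemma `re_log_comb_nonneg'` in
Mathlib/NumberTheory/LSeries/Nonvanishing.lean, copy it).  Split `p`: `a = p^(-1-x)`, `z = g_i(p) p^(-it)`, for `i = 1, 2`.  Inert `p`: `-log(1-w) - log(1+w)`
has real part `Re(-log(1-w²))`, `a = p^(-2-2x)`, `z = p^(-2it)`.  Template: `DirichletCharacter.norm_LSeries_product_ge_one` in the same Mathlib file. -/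
def TFO_stmt : Prop := ∀ k₁ k₂ g₁ g₂ h₁ h₂ : ℕ → ℂ, CM k₁ → CM k₂ → CM g₁ → CM g₂ → CM h₁ → CM h₂ →
  Tri k₁ k₂ g₁ g₂ h₁ h₂ → ∀ x t : ℝ, 0 < x →
  1 ≤ ‖DF (cv k₁ k₂) 0 (1 + (x : ℂ))‖ ^ 3 * ‖DF (cv g₁ g₂) 0 (1 + (x : ℂ) + Complex.I * t)‖ ^ 4 *
    ‖DF (cv h₁ h₂) 0 (1 + (x : ℂ) + 2 * Complex.I * t)‖

/-- **ABL** (medium, long; Abel summation).  `T = 2 + |Im s|`, `N = ⌈(M T)^4⌉`, `w(n) = (log n)^j n^(-s)`.  Terms `n ≤ N`: at most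
`(1 + log N)^j ∑_{n ≤ N} ‖a n‖/n ≤ C₀ (1 + log N)^(j+1)` (Abel: `∑_{n≤N} ‖a n‖/n = A(N)/N + ∑_{n<N} A(n)/(n(n+1))`), `1 + log N ≤ 8 lf M s`.
Terms `n > N`: for all `N' > N`, with `S(n) = ∑_{m ≤ n} a m`,
`∑_{N<n≤N'} a w = S(N') w(N') - S(N) w(N+1) + ∑_{N<n<N'} S(n) (w(n) - w(n+1))`, `‖w(n)‖ ≤ (log n)^j/n`,
`‖w(n) - w(n+1)‖ ≤ (j+T) (1 + log (n+1))^j / n²` (private lemma `f_lip` in Pool/Agent/helper17/TG/SW1.lean, copy it), `(1 + log (n+1))^j ≤ C_j n^(1/4)`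
(`h95_log_pow_le`), so the sum is at most `M (j+T) C_j ∑_{n > N} n^(-5/4) + 2 M C_j N^(-1/4) ≤ C_j' M (j+T)/(M T)`.  The series converges absolutely
(`LSeriesSummable_of_sum_norm_bigO` with `r = 1` for `j = 0`; for `j > 0` compare with the exponent between `1` and `Re s`, or
`LSeries` abscissa and `logMul`); pass to the limit `N' → ∞`. -/
def ABL_stmt : Prop := ∀ (C₀ : ℝ) (j : ℕ), ∃ C : ℝ, 0 < C ∧ ∀ M : ℝ, 1 ≤ M → ∀ a : ℕ → ℂ, Nb C₀ M a →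
  ∀ s : ℂ, 1 < s.re → s.re ≤ 2 → ‖DF a j s‖ ≤ C * lf M s ^ (j + 1)

/-- **LIP** (short, medium).  From ABL with `j = 1`: the derivative of `DF a 0` is `-DF a 1`; template `DD_lip_t` in Pool/Agent/helper17/TG/SW1.lean (the abscissa of
absolute convergence is at most `1`: `LSeriesSummable_of_sum_norm_bigO`). -/
def LIP_stmt : Prop := ∀ C₀ : ℝ, ∃ C : ℝ, 0 < C ∧ ∀ M : ℝ, 1 ≤ M → ∀ a : ℕ → ℂ, Nb C₀ M a →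
  ∀ s s' : ℂ, 1 < s.re → s.re ≤ 2 → 1 < s'.re → s'.re ≤ 2 → |s'.im| ≤ |s.im| →
  ‖DF a 0 s - DF a 0 s'‖ ≤ C * lf M s ^ 2 * ‖s - s'‖

/-- **POL** (short, medium).  Abel: `∑ ‖a n‖ n^(-1-x) = ∑ A(n) (n^(-1-x) - (n+1)^(-1-x)) ≤ C₀ ∑ n^(-1-x) ≤ C₀ (1 + 1/x)` (or
`LSeries_eq_mul_integral`). -/
def POL_stmt : Prop := ∀ (C₀ : ℝ) (a : ℕ → ℂ), (∀ y : ℕ, ∑ n ∈ Ioc 0 y, ‖a n‖ ≤ C₀ * y) →
  ∀ x : ℝ, 0 < x → x ≤ 1 → ‖DF a 0 (1 + (x : ℂ))‖ ≤ 2 * C₀ / x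

/-- **LOW** (medium).  From TFO, ABL, LIP, POL: exactly `lower_complex_t` in Pool/Agent/helper17/TG/SW3a.lean with `DD χ 0`, `DD χ² 0`, the principal character replaced by
`DF (cv g₁ g₂) 0`, `DF (cv h₁ h₂) 0`, `DF (cv k₁ k₂) 0` (bounds `C lf`, `C lf`, `2C₀/x`; `lf M (σ+2it) ≤ 2 lf M (σ+it)`). -/
def LOW_stmt : Prop := ∀ C₀ : ℝ, ∃ c : ℝ, 0 < c ∧ ∀ (M : ℝ) (k₁ k₂ g₁ g₂ h₁ h₂ : ℕ → ℂ),
  Dat C₀ M k₁ k₂ g₁ g₂ h₁ h₂ → ∀ s : ℂ, 1 < s.re → s.re ≤ 2 →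
  c / lf M s ^ 7 ≤ ‖DF (cv g₁ g₂) 0 s‖

/-- **GGB** (short, medium).  From RCS, ABL: exactly Pool/Agent/helper74/TG/SW6.lean (`GG_bound_t_of`) with `DD_succ` replaced by RCS. -/
def GGB_stmt : Prop := ∀ (C₀ : ℝ) (K : ℕ), ∃ (C : ℝ) (E : ℕ), 0 < C ∧ ∀ M : ℝ, 1 ≤ M →
  ∀ g h : ℕ → ℂ, CM g → CM h → Nb C₀ M (cv g h) → ∀ s : ℂ, 1 < s.re → s.re ≤ 2 →
  ∀ b : ℝ, 0 < b → b ≤ 1 → b ≤ ‖DF (cv g h) 0 s‖ → ∀ j ≤ K, ‖DF (LG g h) j s‖ ≤ C * (lf M s / b) ^ E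

/-- **ABS** (medium).  From LOW, GGB and `Pool.Agent.helper74.TG.fourier_sum` (proved: import Pool.Agent.helper74.TG.SW7).  Template `psi_char_of` in
Pool/Agent/helper74/TG/SW8.lean.  For `u ≤ √x` trivial (`‖LG n‖ ≤ 2 log n`).  For `√x < u ≤ x` apply `fourier_sum` at the point `u` with `a n = LG n / 2`
(`‖a n‖ ≤ Λ(n) ≤ log n`), `M ≤ (log x)^B ≤ (2 log u)^B`; for `s = 1 + 1/log u + it`, `|t| ≤ (log u)^(2A+6)`: `lf M s ≤ C log log u`,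
`b = min 1 c / lf^7`, so the Dirichlet series is at most `C (log log u)^E' ≤ log u`. -/
def ABS_stmt : Prop := ∀ (C₀ : ℝ) (A B : ℕ), ∃ C x₀ : ℝ, 0 < C ∧ ∀ x : ℝ, x₀ ≤ x →
  ∀ (M : ℝ) (k₁ k₂ g₁ g₂ h₁ h₂ : ℕ → ℂ), Dat C₀ M k₁ k₂ g₁ g₂ h₁ h₂ → M ≤ Real.log x ^ B →
  ∀ u : ℕ, (u : ℝ) ≤ x → ‖∑ n ∈ Ioc 0 u, LG g₁ g₂ n‖ ≤ C * x / Real.log x ^ A

/-- **CVR** (short, medium).  The pairs `(a, b)` with `ab = pm`: `p ∣ a` or `p ∣ b`; inclusion-exclusion: `p ∣ a`: `g(p) cv(m)`; `p ∣ b`: `h(p) cv(m)`; both: `p ∣ m` and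
`g(p) h(p) cv(m/p)`. -/
def CVR_stmt : Prop := ∀ g h : ℕ → ℂ, CM g → CM h → ∀ p m : ℕ, p.Prime → 1 ≤ m →
  cv g h (p * m) = (g p + h p) * cv g h m - g p * h p * (if p ∣ m then cv g h (m / p) else 0)

/-- **CME** (short).  `g n = 0` for `n = 0`, else `n.factorization.prod fun p e => v p ^ e` (`Nat.factorization_mul`, `Finsupp.prod_add_index'`), or
`(n.primeFactorsList.map v).prod`. -/
def CME_stmt : Prop := ∀ v : ℕ → ℂ, (∀ n, ‖v n‖ ≤ 1) → ∃ g : ℕ → ℂ, CM g ∧ ∀ p : ℕ, p.Prime → g p = v p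

/-! ## Block H: the characters -/

/-- a character of the odd elements modulo units -/
def UC (d : ℕ) (Ψ : ℤ × ℤ → ℂ) : Prop :=
  (∀ z w : ℤ × ℤ, z.1 % 2 = 1 → w.1 % 2 = 1 → Ψ (mul8 z w) = Ψ z * Ψ w) ∧
  (∀ u : ℤ × ℤ, N8 u = 1 → Ψ u = 1) ∧
  (∀ z : ℤ × ℤ, z.1 % 2 = 1 → ¬ Nat.Coprime (nn z) d → Ψ z = 0) ∧
  (∀ z : ℤ × ℤ, z.1 % 2 = 1 → Nat.Coprime (nn z) d → ‖Ψ z‖ = 1) ∧
  (∀ t : ℤ, t % 2 = 1 → IsCoprime t (d : ℤ) → Ψ (t, 0) = 1)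

/-- the sum over the elements of norm `n` of the fundamental domain -/
def rf (Ψ : ℤ × ℤ → ℂ) (n : ℕ) : ℂ := ∑ z ∈ FF n with nn z = n, Ψ z

/-- divisibility in `ℤ[√8]` -/
def Dv (w z : ℤ × ℤ) : Prop := ∃ v : ℤ × ℤ, mul8 w v = z

open scoped Classical in
/-- the principal character -/
def I1 (d : ℕ) (z : ℤ × ℤ) : ℂ := if Nat.Coprime (nn z) d then 1 else 0

/-- **UCH** (medium).  `HC` is a character: `(zw).2 = z.1 w.2 + z.2 w.1 ≡ z.2 + w.2 mod 2` for odd `z, w`; the sign of the norm and `exp (i κ yy)` are multiplicative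
(`yy z = log |z/z'|`, nonzero numbers, `N8 z ≠ 0` for odd `z`); `yy (t,0) = 0`.  Units: `N8 u = 1`; `HC (3,1) = 1` by `UInv` (`|3+√8|/|3-√8| = (3+√8)²`), `HC (-1,0) = 1`,
`HC (3,-1) = 1` (product of both is `(1,0)`); induction on `|u.2|`: if `u = (p,q)`, `p, q > 0` then `mul8 u (3,-1) = (3p - 8q, 3q - p)`, `0 ≤ 3q - p < q`. -/
def UCH_stmt : Prop := ∀ (d : ℕ) (ψ : ℤ × ℤ → ℂ) (j i : ℕ) (κ : ℝ), IsRC d ψ → UInv ψ j κ →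
  UC d (HC ψ j i κ)

open scoped Classical in
/-- **MUL** (medium).  From FDE, FDU.  `z ∈ Fd`, `z = w v`: `v` is odd, `nn v = m`, and there is exactly one unit `u` (`N8 u = 1`) with `u v ∈ Fd`; `z ↦ u v` is a bijection from
`{z ∈ Fd, nn z = m nn w, w ∣ z}` to `{v ∈ Fd, nn v = m}` (inverse: `v ↦ u' w v`), and `Ψ z = Ψ w Ψ (u v)`.  (`Finset.sum_bij'` or injectivity and surjectivity with
`Finset.sum_bij`; a unit is odd, its inverse is `cj u`; `z ∈ FF (nn z)` for `z ∈ Fd` by SIZ.) -/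
def MUL_stmt : Prop := ∀ (d : ℕ) (Ψ : ℤ × ℤ → ℂ), UC d Ψ → ∀ w : ℤ × ℤ, w.1 % 2 = 1 → ∀ m : ℕ, 1 ≤ m →
  ∑ z ∈ FF (m * nn w) with (nn z = m * nn w ∧ Dv w z), Ψ z = Ψ w * rf Ψ m

/-- **RSP** (medium).  From MUL, SIZ.  Split primes.  `π' = cj π`, `π` is odd.  Let `z ∈ Fd`, `nn z = pm`.  `π ∣ z` iff `p` divides both coordinates of `mul8 z π'`.
`(z π').2 (z π).2 = (z₂π₁ - z₁π₂)(z₂π₁ + z₁π₂) = z₂² N8 π - π₂² N8 z ≡ 0 mod p`; if `p ∣ (z π').2` then `N8 (z π') = N8 z N8 π ≡ 0 mod p²` gives `p ∣ (z π').1`.  So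
`π ∣ z` or `π' ∣ z`; both hold iff `p ∣ z` (`z π + z π' = 2 π₁ z`, `p ∤ 2π₁`), and then `p² ∣ pm`, `z = p v`.  Inclusion-exclusion and MUL with `w = π, π', (p,0)`;
`Ψ π Ψ π' = Ψ (N8 π, 0) = 1` so `Ψ π' = conj (Ψ π)`, `Ψ (p,0) = 1`. -/
def RSP_stmt : Prop := ∀ (d : ℕ) (Ψ : ℤ × ℤ → ℂ), UC d Ψ → ∀ (p : ℕ) (π : ℤ × ℤ), p.Prime → p ≠ 2 →
  nn π = p → ¬ p ∣ d → ∀ m : ℕ, 1 ≤ m →
  rf Ψ (p * m) = (Ψ π + (starRingEnd ℂ) (Ψ π)) * rf Ψ m - (if p ∣ m then rf Ψ (m / p) else 0)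

/-- **RIN** (short, medium).  From MUL, SIZ.  `p = 2`: norms in `Fd` are odd.  `p ∣ d`: `Ψ z = 0`.  `p ≡ ±3 mod 8`: `p ∣ z.1² - 8 z.2²` implies `p ∣ z.1, z.2` (`2` is a nonresidue,
`ZMod.exists_sq_eq_two_iff`), so `z = (p,0) v`, MUL with `w = (p,0)`.  Also `rf Ψ 1 = 1` (only `(1,0) ∈ Fd` has norm `1`, by SIZ). -/
def RIN_stmt : Prop := ∀ (d : ℕ) (Ψ : ℤ × ℤ → ℂ), UC d Ψ → rf Ψ 1 = 1 ∧ ∀ p m : ℕ, p.Prime → 1 ≤ m →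
  ((p = 2 ∨ p ∣ d) → rf Ψ (p * m) = 0) ∧
  (p % 8 = 3 ∨ p % 8 = 5 → ¬ p ∣ d → rf Ψ (p * m) = if p ∣ m then rf Ψ (m / p) else 0)

/-- **TRI** (medium).  From RSP, RIN, CVR, CME, THU.  For `p ≡ ±1 mod 8`, `p ∤ d` choose `π_p` with `nn π_p = p` (THU with `ν = 2s`, `s² ≡ 2 mod p`).  Values at `p`: split, `p ∤ d`:
`k = (1, 1)`, `g = (Ψ π_p, conj)`, `h` = squares; inert, `p ∤ d`: `(1, -1)` for all; `p = 2` or `p ∣ d`: `0`.  CME.  `UC d (I1 d)`, `UC d (Ψ²)` hold.  Both sides satisfy the same recursion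
(`(conj u)² = conj (u²)`, `u conj u = 1`) and are `1` at `1`; strong induction with `n = p m`, `p = n.minFac`. -/
def TRI_stmt : Prop := ∀ (d : ℕ) (Ψ : ℤ × ℤ → ℂ), UC d Ψ → ∃ k₁ k₂ g₁ g₂ h₁ h₂ : ℕ → ℂ,
  CM k₁ ∧ CM k₂ ∧ CM g₁ ∧ CM g₂ ∧ CM h₁ ∧ CM h₂ ∧ Tri k₁ k₂ g₁ g₂ h₁ h₂ ∧
  ∀ n : ℕ, 1 ≤ n → rf (I1 d) n = cv k₁ k₂ n ∧ rf Ψ n = cv g₁ g₂ n ∧ rf (fun z => Ψ z ^ 2) n = cv h₁ h₂ n

/-- **SRF** (short).  Bookkeeping (`Finset.sum_fiberwise`, SIZ: `z ∈ FF u` iff `Fd z` and `nn z ≤ u`; FFC for the count). -/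
def SRF_stmt : Prop := (∀ (F : ℤ × ℤ → ℂ) (y : ℕ), ∑ n ∈ Ioc 0 y, rf F n = ∑ z ∈ FF y, F z) ∧
  (∀ F : ℤ × ℤ → ℂ, (∀ z : ℤ × ℤ, z.1 % 2 = 1 → ‖F z‖ ≤ 1) → ∀ y : ℕ, ∑ n ∈ Ioc 0 y, ‖rf F n‖ ≤ 25 * y) ∧
  ∀ (F : ℤ × ℤ → ℂ) (u : ℕ), PS u F = ∑ p ∈ Ioc 0 u with p.Prime, (Real.log p : ℂ) * rf F p

/-- **CNP** (short).  From RSP, RIN with `d = 1`, `Ψ = 1`, `m = 1`, and THU (`rf 1 p = 2 rf 1 1 = 2`). -/
def CNP_stmt : Prop := ∀ p : ℕ, p.Prime →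
  #{z ∈ FF p | nn z = p} = if p % 8 = 1 ∨ p % 8 = 7 then 2 else 0

/-! ## Block P: the lattice point sums -/

/-- the variation in both directions -/
def Va (F : ℤ × ℤ → ℂ) (B : ℕ) : ℝ :=
  ∑ z ∈ Bx (B + 1), (‖F (z.1 + 1, z.2) - F z‖ + ‖F (z.1, z.2 + 1) - F z‖)

open scoped Classical in
/-- the smooth part of the character on the fundamental domain without the parity condition -/
def Fy (i : ℕ) (κ : ℝ) (y : ℕ) (z : ℤ × ℤ) : ℂ :=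
  if (4 * |z.2| < z.1 ∨ |z.1| < 2 * z.2) ∧ nn z ≤ y then
    ((N8 z).sign : ℂ) ^ i * Complex.exp (κ * yy z * Complex.I) else 0

/-- **VAR** (medium).  For `c ∈ [0,D)²` let `T_c = ∑_{z ≡ c mod D} F z`.  The shift by `(1,0)` gives `‖T_{c + (1,0)} - T_c‖ ≤ ∑_z ‖F (z.1+1, z.2) - F z‖`, similarly for `(0,1)`; so
`‖T_c - T_0‖ ≤ D Va F B` and the sum is `∑_c χ(c) (T_c - T_0)`, at most `D² D Va`.  (All sums over `ℤ × ℤ` are finite; with `Bx (B+1)` every nonzero difference is counted.  It may be simplest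
to work with `∑ᶠ` or `tsum` of finitely supported functions.) -/
def VAR_stmt : Prop := ∀ D : ℕ, 0 < D → ∀ χ : ℤ × ℤ → ℂ, (∀ z, ‖χ z‖ ≤ 1) →
  (∀ z w : ℤ × ℤ, (D : ℤ) ∣ z.1 - w.1 → (D : ℤ) ∣ z.2 - w.2 → χ z = χ w) →
  ∑ v ∈ range D ×ˢ range D, χ ((v.1 : ℤ), (v.2 : ℤ)) = 0 →
  ∀ (B : ℕ) (F : ℤ × ℤ → ℂ), (∀ z : ℤ × ℤ, F z ≠ 0 → |z.1| ≤ B ∧ |z.2| ≤ B) →
  ‖∑ z ∈ Bx B, χ z * F z‖ ≤ (D : ℝ) ^ 3 * Va F B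

open scoped Classical in
/-- **TVL** (short, medium).  Two jumps (at most `1` each) and `∑ |κ| |g(t+1) - g(t)| ≤ 2 K |κ|` by monotonicity (telescoping).  `‖exp (ia) - exp (ib)‖ ≤ |a - b|`. -/
def TVL_stmt : Prop := ∀ (P : ℤ → Prop) (g : ℤ → ℝ) (κ K : ℝ) (s : ℂ), ‖s‖ ≤ 1 → 0 ≤ K →
  (∀ t, P t → |g t| ≤ K) → (∀ a b c : ℤ, a ≤ b → b ≤ c → P a → P c → P b) →
  ((∀ a b : ℤ, a ≤ b → P a → P b → g a ≤ g b) ∨ (∀ a b : ℤ, a ≤ b → P a → P b → g b ≤ g a)) →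
  ∀ S : Finset ℤ, ∑ t ∈ S, ‖(if P (t + 1) then s * Complex.exp (κ * g (t + 1) * Complex.I) else 0) -
    (if P t then s * Complex.exp (κ * g t * Complex.I) else 0)‖ ≤ 2 + 2 * K * |κ|

open scoped Classical in
/-- **TV2** (short, medium).  From TVL: sum over the rows and over the columns; at most `2R+1` rows (columns) are not identically zero. -/
def TV2_stmt : Prop := ∀ (P : ℤ × ℤ → Prop) (g : ℤ × ℤ → ℝ) (κ K : ℝ) (s : ℂ) (R B : ℕ), ‖s‖ ≤ 1 →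
  0 ≤ K → (∀ z, P z → |g z| ≤ K) → (∀ z : ℤ × ℤ, P z → |z.1| ≤ R ∧ |z.2| ≤ R) →
  (∀ l a b c : ℤ, a ≤ b → b ≤ c → P (a, l) → P (c, l) → P (b, l)) →
  (∀ l a b c : ℤ, a ≤ b → b ≤ c → P (l, a) → P (l, c) → P (l, b)) →
  (∀ l : ℤ, (∀ a b : ℤ, a ≤ b → P (a, l) → P (b, l) → g (a, l) ≤ g (b, l)) ∨
    (∀ a b : ℤ, a ≤ b → P (a, l) → P (b, l) → g (b, l) ≤ g (a, l))) →
  (∀ l : ℤ, (∀ a b : ℤ, a ≤ b → P (l, a) → P (l, b) → g (l, a) ≤ g (l, b)) ∨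
    (∀ a b : ℤ, a ≤ b → P (l, a) → P (l, b) → g (l, b) ≤ g (l, a))) →
  Va (fun z => if P z then s * Complex.exp (κ * g z * Complex.I) else 0) B ≤
    2 * (2 * R + 1) * (2 + 2 * K * |κ|)

/-- **VAB** (medium).  From TV2.  `Fy` is the sum of four functions `if P z then s exp(iκ yy z) else 0`: P1: `0 ≤ l`, `4l < a`; P2: `l < 0`, `-4l < a`; P3: `0 ≤ a < 2l`;
P4: `a < 0`, `-a < 2l`; each with `nn z ≤ y`, `s = 1` in P1, P2 and `s = (-1)^i` in P3, P4.  `R = Nat.sqrt (2*y)` (`a² ≤ 2y`, `l² ≤ y`), `K = 2`: with `c = √8 l` in P1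
`yy = log ((a+c)/(a-c))`, between `0` and `log (3 + √8) < 2`, decreasing in `a`, increasing in `l`; in P3 `yy = log ((c+a)/(c-a))`, increasing in `a`, decreasing in `l`; P2, P4 by the symmetry
`yy (cj z) = -yy z`, `yy (-a, l) = -yy (a, l)` (or directly).  The rows and columns are intervals (`a² - 8l² ≤ y`, `a > 0`, increasing in `a`, decreasing in `l`, etc.).  `y = 0`: `Fy = 0`. -/
def VAB_stmt : Prop := ∃ C : ℝ, 0 < C ∧ ∀ (i : ℕ) (κ : ℝ) (y B : ℕ),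
  Va (Fy i κ y) B ≤ C * (1 + |κ|) * √(y : ℝ)

/-- **PNP** (medium).  From VAR, VAB, SIZ.  `D = 2d`, `B = 2y`, `χ z = ψ z (-1)^(j |z.2|)` for odd `z`, `0` for even `z`: `∑_{z ∈ FF y} HC z = ∑_{z ∈ Bx (2y)} χ z * Fy i κ y z`.  The sum of `χ` over
`[0,2d)²` vanishes: there is `w` odd, `nn w` coprime to `d`, `χ w ≠ 1`: for `j = 1` `w = (1, d)`; for `j = 0` the given `z`, or `z + (d, 0)` if `z` is even.  `z ↦ w z` is a bijection modulo `2d`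
(multiply by `cj w`) and `χ (w z) = χ w χ z`, so `∑ χ = χ w ∑ χ`. -/
def PNP_stmt : Prop := ∃ C : ℝ, 0 < C ∧ ∀ d : ℕ, Odd d → ∀ ψ : ℤ × ℤ → ℂ, IsRC d ψ → ∀ j i : ℕ, j ≤ 1 →
  ∀ κ : ℝ, ((∃ z, Nat.Coprime (nn z) d ∧ ψ z ≠ 1) ∨ j = 1) → ∀ y : ℕ,
  ‖∑ z ∈ FF y, HC ψ j i κ z‖ ≤ C * (d * (1 + |κ|)) ^ 3 * √(y : ℝ)

/-- **WCH** (medium).  `w = (a, 2d)`, `a ≡ 1 mod 2d` in the interval `2d |κ| [√8·16/(3π), √8·8/π]` (length `≥ 2d · 3.6`).  `r = a/(2d) ≥ 7.2`, `x = √8/r ≤ 1/√2`, `|κ| x ∈ [π/8, 3π/16]`,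
`yy w = log ((1+x)/(1-x)) ∈ [2x, 2x/(1-x²)] ⊂ [2x, 4x]`, so `|κ| yy w ∈ [π/4, 3π/4]`.  `nn w ≤ a² ≤ (15 d |κ|)²`. -/
def WCH_stmt : Prop := ∀ d : ℕ, 0 < d → ∀ κ : ℝ, 3 / 2 ≤ |κ| → ∃ w : ℤ × ℤ, ((2 * d : ℕ) : ℤ) ∣ w.1 - 1 ∧
  ((2 * d : ℕ) : ℤ) ∣ w.2 ∧ (nn w : ℝ) ≤ 300 * (d * (1 + |κ|)) ^ 2 ∧ 1 / 2 ≤ |Real.sin (κ * yy w)|

/-- **PPR** (medium, long).  From VAR, VAB, WCH, MUL, UCH, SRF, SIZ.  `ψ` principal, `j = 0`, `κ ≠ 0`.  `exp (i κ 2 log (3+√8)) = 1`, so `|κ| ≥ π/log (3+√8) ≥ 3/2`.  `w` from WCH, `n = nn w`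
(`N8 w ≡ 1 mod 2d`, so `n` is coprime to `2d`), `w' = cj w`, `Y = n y`.  The `z ∈ FF Y` with `w ∣ z` have `nn z = n m`, `m ≤ y`, so by MUL
`∑_{z ∈ FF Y, w ∣ z} Ψ z = Ψ w S(y)`, `S(y) = ∑_{z ∈ FF y} Ψ z`; the same for `w'`.  The difference of both is `∑_{z ∈ Bx (2Y)} χ z * Fy i κ Y z` with
`χ z = 1_{z odd} 1_{(nn z, d) = 1} (1_{w ∣ z} - 1_{w' ∣ z})`, periodic modulo `D = 2 d n` (`w ∣ z` iff `n ∣` both coordinates of `z w'`), with mean `0` by the symmetry `z ↦ cj z`.  Hence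
`‖(Ψ w - Ψ w') S(y)‖ ≤ (2dn)³ C (1+|κ|) √(n y)`, and `‖Ψ w - Ψ w'‖ = 2 |sin (κ yy w)| ≥ 1` (`yy (cj w) = -yy w`, same norm).  No main term has to be computed. -/
def PPR_stmt : Prop := ∃ C : ℝ, 0 < C ∧ ∀ d : ℕ, Odd d → ∀ ψ : ℤ × ℤ → ℂ, IsRC d ψ → ∀ i : ℕ,
  ∀ κ : ℝ, (∀ z, Nat.Coprime (nn z) d → ψ z = 1) → κ ≠ 0 → UInv ψ 0 κ → ∀ y : ℕ,
  ‖∑ z ∈ FF y, HC ψ 0 i κ z‖ ≤ C * (d * (1 + |κ|)) ^ 12 * √(y : ℝ)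

/-! ## Block F: the theorem -/

/-- **APW** (medium).  From `siegel_walfisz` (proved: import Pool.Agent.helper74.TG.SW): `∑_{p ≤ u} log p W(p) = ∑_{b < q} W(b) θ(u; q, b)`, `|∑_{n ≤ u, n ≡ b} Λ(n) - θ(u;q,b)|` is at
most the contribution of the proper prime powers (`≤ C √x (log x)^2` for all `b` together; `Chebyshev` in Mathlib), with exponent `A + B + 1` in `siegel_walfisz`. -/
def APW_stmt : Prop := ∀ A B : ℕ, ∃ C x₀ : ℝ, 0 < C ∧ ∀ x : ℝ, x₀ ≤ x → ∀ q : ℕ, 0 < q →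
  (q : ℝ) ≤ Real.log x ^ B → ∀ W : ℕ → ℂ, (∀ n, W (n + q) = W n) → (∀ n, ‖W n‖ ≤ 2) →
  (∀ n, ¬ Nat.Coprime n q → W n = 0) → ∀ u : ℕ, (u : ℝ) ≤ x →
  ‖∑ p ∈ Ioc 0 u with p.Prime, (Real.log p : ℂ) * W p - (u : ℂ) / (Nat.totient q : ℂ) * ∑ b ∈ range q, W b‖
    ≤ C * x / Real.log x ^ A

/-- **RSQ** (medium).  Let `t t̄ ≡ 1 mod d`, `η = t̄ z`: `N8 η ≡ 1`, `ψ η = ψ z`.  Let `d₁ = gcd(2 + 2 η.1, d)`, `d₂ = d/d₁` (coprime to `d₁`), `c ≡ -1 mod d₁`, `c ≡ 1 mod d₂`, and replace `η` by `c η`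
(`ψ` does not change, `c² ≡ 1`): modulo a prime of `d₁` the new `2 + 2η.1` is `≡ 4 - (2 + 2η.1) ≡ 4`, so now `2 + 2η.1` is coprime to `d`.  `(1+η)² ≡ (2 + 2η.1) η mod d` (since `η η' ≡ 1`), `N8 (1+η) ≡ 2 + 2η.1`
is coprime to `d`, so `1 = ψ (1+η)² = ψ (2+2η.1, 0) ψ η = ψ η`. -/
def RSQ_stmt : Prop := ∀ d : ℕ, Odd d → Squarefree d → ∀ ψ : ℤ × ℤ → ℂ, IsRC d ψ →
  (∀ z, Nat.Coprime (nn z) d → ψ z ^ 2 = 1) → ∀ (z : ℤ × ℤ) (t : ℤ), IsCoprime t (d : ℤ) →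
  (d : ℤ) ∣ N8 z - t ^ 2 → ψ z = 1

/-- **RCH** (medium).  From RSQ, THU.  If `N8 z ≡ N8 w mod d` (coprime to `d`) then `N8 (z w') ≡ (N8 z)²`, so `ψ z ψ w' = 1 = ψ w ψ w'`, `ψ z = ψ w`.  Every residue class `n` coprime to `d` is the norm of some `z`:
take a prime `p ≡ n mod d`, `p ≡ 1 mod 8` (Dirichlet: `Nat.forall_exists_prime_gt_and_eq_mod`, CRT), THU with `ν = 2s`, `s² ≡ 2 mod p` gives `nn z = p`, and `N8 z ≡ 1 mod 8` so `N8 z = p`.  So `χ(N8 z) = ψ z` defines a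
homomorphism on `(ZMod d)ˣ` (`MulChar.ofUnitHom`). -/
def RCH_stmt : Prop := ∀ d : ℕ, Odd d → Squarefree d → ∀ ψ : ℤ × ℤ → ℂ, IsRC d ψ →
  (∀ z, Nat.Coprime (nn z) d → ψ z ^ 2 = 1) →
  ∃ χ : DirichletCharacter ℂ d, ∀ z, Nat.Coprime (nn z) d → ψ z = χ ((N8 z : ℤ) : ZMod d)

/-- **REL** (medium).  From RCH, CNP, APW, SRF, SIZ: the real characters.  `1 = UInv = χ(1) (-1)^j`, so `j = 0`.  For `z ∈ Fd`, `nn z = p` prime: `p ≡ 1 mod 8`, `N8 z = p`, `HC z = χ(p)`; or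
`p ≡ 7 mod 8`, `N8 z = -p`, `HC z = e χ(p)`, `e = χ(-1) (-1)^i = ±1`; there are two such `z` (CNP), so `PS u (HC) = ∑_{p ≤ u} log p W(p)` with `W(b) = 2χ(b)`, `2eχ(b)`, `0` for `b ≡ 1`, `b ≡ 7 mod 8`, else; APW with
`q = 8d`.  `∑_{b < 8d} W(b) = 2 (1+e) ∑_{c mod d} χ(c) = 0`: if `χ ≠ 1` the last sum vanishes, if `χ = 1` then `e = (-1)^i` and `i = 1` by `¬ HTriv`. -/
def REL_stmt : Prop := ∀ A B : ℕ, ∃ C x₀ : ℝ, 0 < C ∧ ∀ x : ℝ, x₀ ≤ x → ∀ d : ℕ, Odd d → Squarefree d →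
  (d : ℝ) ≤ Real.log x ^ B → ∀ ψ : ℤ × ℤ → ℂ, IsRC d ψ → (∀ z, Nat.Coprime (nn z) d → ψ z ^ 2 = 1) →
  ∀ j i : ℕ, j ≤ 1 → i ≤ 1 → UInv ψ j 0 → ¬ HTriv d ψ j i 0 → ∀ u : ℕ, (u : ℝ) ≤ x →
  ‖PS u (HC ψ j i 0)‖ ≤ C * x / Real.log x ^ A

/-- **CPX** (medium).  From ABS, TRI, PNP, PPR, UCH, SRF: the complex characters.  `Ψ = HC ψ j i κ`, `Ψ² = HC ψ² 0 0 (2κ)` on the odd elements (`IsRC d (ψ²)`, `UInv (ψ²) 0 (2κ)`); by hypothesis `ψ²` is not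
principal or `κ ≠ 0`, so PNP or PPR bounds the summatory functions of `rf Ψ` and `rf Ψ²` (SRF) by `M √y`, `M = 1 + C (d (1+2|κ|))^12 ≤ (log x)^B'`.  TRI, SRF give `Dat 25 M`, ABS gives the bound for
`∑_{n ≤ u} Λ(n) (g₁ + g₂)(n)`; `rf Ψ p = g₁ p + g₂ p`, the proper prime powers contribute `≤ C √x (log x)^2`, and `PS u Ψ = ∑_{p ≤ u} log p rf Ψ p` (SRF). -/
def CPX_stmt : Prop := ∀ A B : ℕ, ∃ C x₀ : ℝ, 0 < C ∧ ∀ x : ℝ, x₀ ≤ x → ∀ d : ℕ, Odd d →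
  (d : ℝ) ≤ Real.log x ^ B → ∀ ψ : ℤ × ℤ → ℂ, IsRC d ψ → ∀ j i : ℕ, j ≤ 1 → i ≤ 1 → ∀ κ : ℝ,
  |κ| ≤ Real.log x ^ B → UInv ψ j κ →
  ¬ ((∀ z, Nat.Coprime (nn z) d → ψ z ^ 2 = 1) ∧ κ = 0) → ∀ u : ℕ, (u : ℝ) ≤ x →
  ‖PS u (HC ψ j i κ)‖ ≤ C * x / Real.log x ^ A

end Pool.Agent.HK
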