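import Pool.Agent.helper95.FI.SpecM

/-!
# Project fi, Spec N: the asymptotic formula for the mean value

RULES.  File `Pool/Agent/<seat>/FI/XX.lean`, `import Pool.Agent.helper36.HK.SpecN`, `namespace Pool.Agent.FI`, `open Finset`,
`theorem XX (h1 : YY_stmt) ... : XX_stmt`, auxiliary lemmas prefixed `XX_` (private where possible).  Never change this file.
If a statement is wrong tell helper36 at once.  No `convert` / `congr!`, no `native_decide`, no straight double quotes.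

The box `0 < a ≤ A`, `x < l ≤ 2x` is cut into cells `k` by the tents `tn (1/m) (k/m) (yy z)`, `1 ≤ k < m`.  For `|a| < 2l`, `n = nn z = 8l² - a²`,
`y = yy z`: `a = √n sinh(y/2)`, `√8 l = √n cosh(y/2)`, `|y| ≤ lep < 2`.
-/

set_option autoImplicit false

open Finset

noncomputable section

namespace Pool.Agent.FI

/-- the lower end of the norms in the cell `k` -/
def cu1 (x m k : ℕ) : ℕ := ⌊8 * (x : ℝ) ^ 2 / Real.cosh (k / (2 * m)) ^ 2⌋₊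

/-- the upper end of the norms in the cell `k` -/
def cu2 (x A m k : ℕ) : ℕ :=
  max (cu1 x m k) ⌊min (32 * (x : ℝ) ^ 2 / Real.cosh (k / (2 * m)) ^ 2) ((A : ℝ) ^ 2 / Real.sinh (k / (2 * m)) ^ 2)⌋₊

/-- the indicator of the box -/
def wbx (x A : ℕ) (z : ℤ × ℤ) : ℝ := if 0 < z.1 ∧ z.1 ≤ A ∧ (x : ℤ) < z.2 ∧ z.2 ≤ 2 * x then 1 else 0

/-- the weight of the cells -/
def wcl (x A m : ℕ) (z : ℤ × ℤ) : ℝ :=
  ∑ k ∈ Ico 1 m, if cu1 x m k < nn z ∧ nn z ≤ cu2 x A m k then tn (1 / m) (k / m) (yy z) else 0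

/-- **FL2** (medium; fundamental lemma, `ω ≤ 2`).  Copy of `fund_abstract` in Pool/Agent/helper23/Slope/FL.lean (its `Z r` is `Zr r`) with `κ = 2` instead of `1` in `es_div_le`, `err_le` (Pool/Agent/Lib/SievePrimes.lean):
`B = Z 2 + 5 * 2 + b = 26 + b`, `bpar (26 + b) r i = bpar (Z 2 + 10) (r + b) i`; the errors are `≤ (Z r)^(2 (4B+4) + 4)`, so `c = 300` is enough.  `ω p < p` for the primes gives `g p < 1`. -/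
def FL2_stmt : Prop := ∃ c : ℕ, ∀ (b r : ℕ) (α : Type) (S : Finset α) (a : α → ℝ) (h : ℕ → α → ℝ) (X : ℝ) (ω : ℕ → ℝ),
  (∀ n ∈ S, 0 ≤ a n) → (∀ p, ∀ n ∈ S, 0 ≤ h p n) → (∀ p, ∀ n ∈ S, h p n ≤ 1) → 0 ≤ X → (∀ p, 0 ≤ ω p) → (∀ p, ω p ≤ 2) →
  (∀ p : ℕ, p.Prime → ω p < p) →
  (∀ D ⊆ Nat.primesLE (Zr r), |∑ n ∈ S, a n * ∏ p ∈ D, h p n - X * ∏ p ∈ D, (ω p / p)| ≤ ∏ p ∈ D, ω p) →
  (1 - (1 / 4 : ℝ) ^ b) * X * ∏ p ∈ Nat.primesLE (Zr r), (1 - ω p / p) - (Zr r : ℝ) ^ (c * (b + 1))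
      ≤ ∑ n ∈ S, a n * ∏ p ∈ Nat.primesLE (Zr r), (1 - h p n) ∧
  ∑ n ∈ S, a n * ∏ p ∈ Nat.primesLE (Zr r), (1 - h p n)
      ≤ (1 + (1 / 4 : ℝ) ^ b) * X * ∏ p ∈ Nat.primesLE (Zr r), (1 - ω p / p) + (Zr r : ℝ) ^ (c * (b + 1))

/-- **GBA** (medium; the geometry, `C = 8`).  From YYB.  Tents: `∑_{1 ≤ k < m} tn (1/m) (k/m) y ≤ 1` for all `y`, with equality for `1/m ≤ y ≤ 1 - 1/m`.  `c_k = cosh (k/2m)`, `s_k = sinh (k/2m)`; `|y - k/m| < 1/m` implies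
`|cosh(y/2) - c_k| ≤ 1/m`, `|sinh(y/2) - s_k| ≤ 1/m` (the derivatives `sinh(t)/2`, `cosh(t)/2` are at most `1` for `|t| ≤ 1`).
(A) `z` in the box, `wcl ≠ 1`: `y > 0`, `tanh(y/2) = a/(√8 l) < 1/√8`, so `y ≤ 0.75`; `n ≤ 32 x²`.  If `y < 1/m` then `a = √n sinh(y/2) ≤ 6x/m`.  Otherwise the tents sum to `1` and for some `k` with `|y - k/m| < 1/m` not `cu1 < n ≤ cu2`.  `n ≤ cu1`:
`√8 l = √n cosh(y/2) ≤ √8 x cosh(y/2)/c_k ≤ √8 x (1 + 1/m)`.  `n > cu2`: `n > 32x²/c_k²`, so `√8 l > √32 x (1 - 1/m)`; or `n > A²/s_k²`, so `a ≥ √n s_k - √n/m > A - 6x/m`.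
(B) `z` not in the box, `wcl ≠ 0`: some `k ≥ 1` with `|y - k/m| < 1/m`, `cu1 < n ≤ cu2`; so `n > 8x²/c_k²`, `cu2` is the floor of the minimum, `n ≤ 32x²/c_k²`, `n ≤ A²/s_k²`, `y > 0`, `a > 0`.  If `a > A`: `a ≤ √n s_k + √n/m ≤ A + 6x/m`.  If `l ≤ x`: `√8 l ≥ √8 x (1 - 1/m)`.
If `l > 2x`: `√8 l ≤ √32 x (1 + 1/m)`.  Sizes: `4 l² < n ≤ 32 x²`. -/
def GBA_stmt : Prop := ∃ C : ℝ, 0 < C ∧ ∀ x A m : ℕ, 1 ≤ A → A ≤ x → 10 ≤ m → ∀ z : ℤ × ℤ, |z.1| < 2 * z.2 →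
  0 ≤ wcl x A m z ∧ wcl x A m z ≤ 1 ∧ (wcl x A m z ≠ wbx x A z →
    |(z.1 : ℝ)| ≤ 6 * x ∧ |(z.2 : ℝ)| ≤ 6 * x ∧
    (|(z.1 : ℝ)| ≤ C * (x / m + 1) ∨ |(z.1 : ℝ) - A| ≤ C * (x / m + 1) ∨ |(z.2 : ℝ) - x| ≤ C * (x / m + 1) ∨
      |(z.2 : ℝ) - 2 * x| ≤ C * (x / m + 1)))

/-- **GBB** (medium).  From GBA, SIZ.  Both sums are sums over the `z ∈ FF (32x²)` with `N8 z < 0`, `nn z` prime, `d ∣ z.2`, of `log (nn z)` times `wbx x A z`, resp. `wcl x A m z` (`cu2 ≤ 32 x²`; the elements of `PZ x A` are odd with `|a| < 2l`, so in `Fd`, and `nn ζ ≤ 32x²`; `nn ζ` prime implies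
coprime coordinates).  The weights differ on at most `4 (2C(x/m+1) + 1)(12x + 1)` points by GBA, by at most `1`, and `log (32x²) ≤ 7 log x`. -/
def GBB_stmt : Prop := ∃ C : ℝ, 0 < C ∧ ∀ x A m d : ℕ, 2 ≤ x → 1 ≤ A → A ≤ x → 10 ≤ m → 1 ≤ d →
  |∑ ζ ∈ PZ x A with ((nn ζ).Prime ∧ (d : ℤ) ∣ ζ.2), Real.log (nn ζ) -
      ∑ k ∈ Ico 1 m, Gd (cu1 x m k) (cu2 x A m k) (1 / m) (k / m) d|
    ≤ C * x * (x / m + 1) * Real.log x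

/-- **GBR** (medium; the Riemann sum).  `F(y) = max 0 (min (32x²/cosh²(y/2)) (A²/sinh²(y/2)) - 8x²/cosh²(y/2))` is antitone on `(0, ∞)` and at most `24 x²` (`24x²/cosh²` decreases; `A²/sinh² - 8x²/cosh² = (A² - 8x² tanh²)/sinh²` decreases where it is positive).  The floors change each term by at most `1/m`.
`∑_{1 ≤ k < m} F(k/m)/m` differs from `∫_0^1 F` by at most `24x²/m`.  With `tanh(y₁/2) = A/(√32 x)`, `tanh(y₂/2) = A/(√8 x)`, `0 < y₁ < y₂ < 1`: `F = 24x²/cosh²(y/2)` on `[0,y₁]` (antiderivative `48x² tanh(y/2)`), `F = A²/sinh² - 8x²/cosh²` on `[y₁,y₂]` (antiderivative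
`-2A² coth(y/2) - 16x² tanh(y/2)`), `F = 0` after `y₂`; total `48Ax/√32 + 2Ax(√32 - √8) - 16Ax(1/√8 - 1/√32) = 4√8 A x`. (Instead of integrals one may use the antiderivative `Φ` directly: `F(k/m)/m ≤ Φ(k/m) - Φ((k-1)/m) ≤ F((k-1)/m)/m`.) -/
def GBR_stmt : Prop := ∃ C : ℝ, 0 < C ∧ ∀ x A m : ℕ, 1 ≤ A → A ≤ x → 10 ≤ m →
  |∑ k ∈ Ico 1 m, (1 / (m : ℝ)) * ((cu2 x A m k : ℝ) - cu1 x m k) - 4 * √8 * (A * x)| ≤ C * ((x : ℝ) ^ 2 / m + 1)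

/-- **GBX** (medium).  From GBB, GBR, GDA.  `m = ⌈L^(B+3)⌉`, GDA with exponents `2B + 8` and `B + 4` (`h = 1/m ≥ 1/L^(B+4)`, `h ≤ k/m`, `(k+1)/m ≤ 1`; `x ≤ cu1` since `cosh(1/2)² < 2`; `cu1 ≤ cu2 ≤ 32x²`); `∑_k h (cu2 - cu1)/(4 lep) = √8 A x/lep + O(x²/m + 1)`, the product of the `gg` is at most `1`; the
GDA errors add up to `m x²/L^(2B+8)`. -/
def GBX_stmt : Prop := ∀ B : ℕ, ∃ x₀ : ℕ, ∀ x : ℕ, x₀ ≤ x → ∀ d : ℕ, Squarefree d → (d : ℝ) ≤ Real.log x ^ B → ∀ A : ℕ, 1 ≤ A → A ≤ x →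
  |∑ ζ ∈ PZ x A with ((nn ζ).Prime ∧ (d : ℤ) ∣ ζ.2), Real.log (nn ζ) - (∏ p ∈ d.primeFactors, gg p) * (√8 / lep * (A * x))|
    ≤ x ^ 2 / Real.log x ^ B

/-- the constant `∏_p (1 - gg p)/(1 - 1/p)`: the factor is `1` at `2`, `1 - 1/(p-1)²` for `p = ±1 mod 8`, `(1 - 1/p²)⁻¹` for `p = ±3 mod 8` -/
def Sg : ℝ := ∏' p : Nat.Primes, ((1 - gg p) / (1 - 1 / ((p : ℕ) : ℝ)))

/-- **KPS** (medium).  `kap r ∏ (1 - gg p) = ∏_{p ≤ Zr r} (1 - gg p)/(1 - 1/p)`, the factors are `1 + e_p`, `|e_p| ≤ 2/(p-1)² ≤ 8/p²`: absolutely convergent product (`Real.multipliable_of_summable_log` or `multipliable_one_add_of_summable`; positivity by `Real.rexp_tsum_eq_tprod` or from KPR-like bounds), and the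
sets `primesLE (Zr r)` exhaust the primes. -/
def KPS_stmt : Prop := 0 < Sg ∧
  Filter.Tendsto (fun r : ℕ => kap r * ∏ p ∈ Nat.primesLE (Zr r), (1 - gg p)) Filter.atTop (nhds Sg)

/-- **MTA** (medium).  From FL2, GBX, KPR, KAP.  As MTMx (look at its proof, and at helper95/FI/SpecM.lean), with FL2 instead of `brun_hooley`: the finite set of the `ζ ∈ PZ x A` with `nn ζ` prime, weights `log (nn ζ)/E₁`, `E₁ = x²/L^B₁`, `h_p(ζ) = [p ∣ ζ.2]`, `ω p = p gg p`, `X = (√8/lep) A x/E₁`.  `D` with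
`d = ∏ D ≤ L^B`: GBX; `d > L^B`: the sum is at most `x (x/d + 1) log(32x²)` (`0` if `d > 2x`), `X E₁ ∏ gg ≤ 2 x² kap/L^B`, both `≤ E₁ ∏ ω` (KPR: `∏ ω ≥ 1/kap`).  `4^{-b} ≤ ε/100`, `B₁ = 2 C₅ c (b+1) + K + 3`, `B = B₁ + 5`: the sieve error is `kap E₁ (Zr r)^{c(b+1)} ≤ x²/L^{K+1} ≤ (ε/4) A x`;
`kap ∏ (1 - gg) ≤ 2` (`∏ p²/(p²-1) ≤ 2`), so the relative error `4^{-b}` costs at most `4^{-b} · 2 · (√8/lep) A x`. `[l rough] = ∏ (1 - h_p)` and `nu r l = kap r [l rough]`. -/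
def MTA_stmt : Prop := ∀ ε : ℝ, 0 < ε → ∀ C₅ K : ℕ, ∃ x₀ : ℕ, ∀ x : ℕ, x₀ ≤ x → ∀ r : ℕ, Real.log x ^ C₅ ≤ Zr r → (Zr r : ℝ) ≤ Real.log x ^ (2 * C₅) → ∀ A : ℕ,
  (x : ℝ) / Real.log x ^ K ≤ A → A ≤ x →
  |∑ ζ ∈ PZ x A, nu r ζ.2 * (if (nn ζ).Prime then Real.log (nn ζ) else 0) -
      kap r * (∏ p ∈ Nat.primesLE (Zr r), (1 - gg p)) * (√8 / lep * (A * x))| ≤ ε * (A * x)

/-- **MVS** (medium).  From RED, PPW, PPX, KAP, MTA, KPS.  As PMVx: RED with `B = K + 1`; for large `x` there is `r` with `L^C₅ ≤ Zr r ≤ L^(2C₅)` (the least `r` with `L^C₅ ≤ Zr r`), and `r → ∞` as `x → ∞` (use MTA with `ε/4`, KPS with `ε/(4 · √8/lep)`).  On `PZ` `lam = th - nu`, so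
`∑ th log [prime] - ∑ nu log [prime] = ∑ lam Λ - ∑_{not prime} th Λ + ∑_{not prime} nu Λ`: RED, PPW (`≤ x^(3/2)`), PPX (`nu ≤ kap ≤ C log (Zr r)`, `kap x^(4/3)`); `Λ(q) = log q` for primes. -/
def MVS_stmt : Prop := ∀ ε : ℝ, 0 < ε → ∀ K : ℕ, ∃ x₀ : ℕ, ∀ x : ℕ, x₀ ≤ x → ∀ A : ℕ, (x : ℝ) / Real.log x ^ K ≤ A → A ≤ x →
  |∑ ζ ∈ PZ x A with (nn ζ).Prime, th ζ.2 * Real.log (nn ζ) - √8 / lep * Sg * (A * x)| ≤ ε * (A * x)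

/-- **PPX** (short, medium).  From SIZ, CN1.  As PPW without the weight `th`. `nn ζ = 8l² - a² ≡ 7 mod 8` is a prime power `q^j` which is not a prime, so `j ≥ 3`; at most `(32x²)^(1/3)` values for each `j ≤ 4L`; at most `τ(q^j) ≤ 4L` pairs for each value. -/
def PPX_stmt : Prop := ∃ x₀ : ℕ, ∀ x : ℕ, x₀ ≤ x → ∀ A : ℕ, A ≤ x →
  ∑ ζ ∈ PZ x A with ¬ (nn ζ).Prime, ArithmeticFunction.vonMangoldt (nn ζ) ≤ x ^ (4 / 3 : ℝ)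

/-- **MVA** (short, medium).  From MVS, KPS.  The pairs with `th ≠ 0`, `nn ζ` prime: `ζ = (a, p)`, `a` odd, `1 ≤ a ≤ A`, `p ∈ (x, 2x]` prime, `8p² - a²` prime (coprimality is automatic); the weight is `log p log (8p² - a²) = 2 L² (1 + O(1/L))` as `7x² ≤ 8p² - a² ≤ 32x²`; all terms are nonnegative. -/
def MVA_stmt : Prop := ∀ ε : ℝ, 0 < ε → ∀ K : ℕ, ∃ x₀ : ℕ, ∀ x : ℕ, x₀ ≤ x → ∀ A : ℕ, (x : ℝ) / Real.log x ^ K ≤ A → A ≤ x →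
  |∑ a ∈ (Icc 1 A).filter Odd, (Pool.Agent.FIP.cta x a : ℝ) - √8 / (2 * lep) * Sg * (A * x / Real.log x ^ 2)| ≤ ε * (A * x / Real.log x ^ 2)

end Pool.Agent.FI
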