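import Pool.Agent.helper94.FIP.Spec

/-!
# Project fi, Spec O: a positive proportion of the primes `p`

RULES.  File `Pool/Agent/<seat>/FI/XX.lean`, `import Pool.Agent.helper36.HK.SpecO`, `namespace Pool.Agent.FIP`, `open Finset`,
`theorem XX (h1 : YY_stmt) ... : XX_stmt`, auxiliary lemmas prefixed `XX_` (private where possible).  Never change this file.
If a statement is wrong tell helper36 at once.  No `convert` / `congr!`, no `native_decide`, no straight double quotes.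
-/

set_option autoImplicit false

open Finset

namespace Pool.Agent.FIP

/-- the number of the odd `a ≤ A` with `8p² - a²` prime -/
def ctp (A p : ℕ) : ℕ := #((Icc 1 A).filter fun a => Odd a ∧ (8 * p ^ 2 - a ^ 2).Prime)

/-- **PSU** (medium; sieve bound for every prime `p`).  From M8.  As PSV (Pool/Agent/*/FIP/PSV.lean) with the roles exchanged: `interval_sieve 2` (Pool/Agent/Lib/SieveInterval.lean), `H = A`, starting point `0`, `C l = {c < l : l ∣ 8p² - c²}` (in `ℤ`): `#C 2 = 1` (`c = 0`), `#C l ≤ 2 < l`.  For `l ≡ ±3 mod 8`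
`C l` is empty (`l ∤ 2p` since `l ≤ Z < p`, `2` is a nonresidue), for `l ≡ ±1 mod 8` `#C l = 2`.  An odd `a ≤ A ≤ x < p` with `8p² - a²` prime is not in `C l` modulo `l` for `l ≤ Z` (`8p² - a² ≥ 7p² > Z`).  `Z = Z r` with `Z^(2B₀) ≤ A < Z^(4B₀)`, `A ≥ √x`, so `log Z ≥ c log x`.
Product: `∏_{l ≤ Z, l ≡ ±1} (1 - 2/l) ≤ exp (-∑ 2/l) ≤ C/log Z` by M8. -/
def PSU_stmt : Prop := ∃ C : ℝ, 0 < C ∧ ∀ K : ℕ, ∃ x₀ : ℕ, ∀ x : ℕ, x₀ ≤ x → ∀ A : ℕ, (x : ℝ) / Real.log x ^ K ≤ A → A ≤ x →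
  ∀ p ∈ (Ioc x (2 * x)).filter Nat.Prime, (ctp A p : ℝ) ≤ C * (A / Real.log x)

/-- **PPB** (short, medium).  From PSU, PMV.  `∑_p ctp A p = ∑_{a odd} cta x a ≥ c₁ A x/log² x` (PMV; interchange of the sums), the number of the primes in `(x, 2x]` is at most `C₁ x/log x` (Chebyshev; Mathlib or Pool/Agent/Lib/PrimeSums.lean).  The `p` with `ctp < c A/log x` contribute at most
`c C₁ A x/log² x ≤ (c₁/2) A x/log² x` for `c = c₁/(2C₁)`; for the others PSU. -/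
def PPB_stmt : Prop := ∃ c : ℝ, 0 < c ∧ ∀ K : ℕ, ∃ x₀ : ℕ, ∀ x : ℕ, x₀ ≤ x → ∀ A : ℕ, (x : ℝ) / Real.log x ^ K ≤ A → A ≤ x →
  c * (x / Real.log x) ≤ #((Ioc x (2 * x)).filter fun p => p.Prime ∧ c * (A / Real.log x) ≤ ctp A p)

end Pool.Agent.FIP
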