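import Pool.Agent.helper36.HK.Spec

/-!
# Project fi, block HK, row VAR: sums of a periodic function of mean zero against a function of bounded variation
-/

namespace Pool.Agent.HK

open Finset Pool.Agent.FI

private lemma VAR_shift {F : ℤ × ℤ → ℂ} (hF : (Function.support F).Finite) (v : ℤ × ℤ) :
    (Function.support fun z => F (z + v)).Finite := by
  have : (Function.support fun z => F (z + v)) = (fun z => z + v) ⁻¹' (Function.support F) := rfl
  rw [this]
  exact hF.preimage (fun a _ b _ h => by simpa using h)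

private lemma VAR_sub {F G : ℤ × ℤ → ℂ} (hF : (Function.support F).Finite)
    (hG : (Function.support G).Finite) : (Function.support fun z => F z - G z).Finite := by
  refine (hF.union hG).subset ?_
  intro z hz
  simp only [Function.mem_support, Set.mem_union] at hz ⊢
  by_contra h
  push Not at h
  exact hz (by rw [h.1, h.2, sub_zero])

private lemma VAR_sum {F : ℤ × ℤ → ℂ} (hF : (Function.support F).Finite) :
    Summable fun z => ‖F z‖ := by
  apply summable_of_hasFiniteSupport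
  refine hF.subset ?_
  intro z hz
  simpa using hz

/-- the total difference by a shift -/
private noncomputable def VAR_T (F : ℤ × ℤ → ℂ) (v : ℤ × ℤ) : ℝ := ∑' z, ‖F (z + v) - F z‖

private lemma VAR_T_nonneg (F : ℤ × ℤ → ℂ) (v : ℤ × ℤ) : 0 ≤ VAR_T F v :=
  tsum_nonneg fun _ => norm_nonneg _

private lemma VAR_T_add {F : ℤ × ℤ → ℂ} (hF : (Function.support F).Finite) (v w : ℤ × ℤ) :
    VAR_T F (v + w) ≤ VAR_T F v + VAR_T F w := by
  have h1 : Summable fun z => ‖F (z + w + v) - F (z + w)‖ := by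
    have := VAR_sum (VAR_sub (VAR_shift hF v) hF)
    exact (Equiv.addRight w).summable_iff.2 this
  have h2 : Summable fun z => ‖F (z + w) - F z‖ := VAR_sum (VAR_sub (VAR_shift hF w) hF)
  have h3 : VAR_T F v = ∑' z, ‖F (z + w + v) - F (z + w)‖ :=
    ((Equiv.addRight w).tsum_eq fun z => ‖F (z + v) - F z‖).symm
  rw [h3]
  unfold VAR_T
  rw [← h1.tsum_add h2]
  refine Summable.tsum_le_tsum ?_ (VAR_sum (VAR_sub (VAR_shift hF (v + w)) hF)) (h1.add h2)
  intro z
  have e : z + (v + w) = z + w + v := by abel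
  rw [e]
  calc ‖F (z + w + v) - F z‖ = ‖(F (z + w + v) - F (z + w)) + (F (z + w) - F z)‖ := by ring_nf
    _ ≤ _ := norm_add_le _ _

private lemma VAR_T_nsmul {F : ℤ × ℤ → ℂ} (hF : (Function.support F).Finite) (v : ℤ × ℤ) (k : ℕ) :
    VAR_T F (k • v) ≤ k * VAR_T F v := by
  induction k with
  | zero => simp [VAR_T]
  | succ k ih =>
    rw [succ_nsmul]
    refine (VAR_T_add hF _ _).trans ?_
    push_cast
    linarith

private lemma VAR_per {f : ℤ → ℂ} {D : ℕ} (hf : ∀ a b : ℤ, (D : ℤ) ∣ a - b → f a = f b) (z : ℤ) :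
    ∑ i ∈ range D, f (z + i) = ∑ i ∈ range D, f (i : ℤ) := by
  have step : ∀ z : ℤ, ∑ i ∈ range D, f (z + 1 + i) = ∑ i ∈ range D, f (z + i) := by
    intro z
    have h1 := Finset.sum_range_succ (fun i : ℕ => f (z + i)) D
    have h2 := Finset.sum_range_succ' (fun i : ℕ => f (z + i)) D
    have h3 : f (z + (D : ℕ)) = f (z + (0 : ℕ)) := hf _ _ (by simp)
    rw [h1] at h2
    have h4 : ∑ i ∈ range D, f (z + 1 + i) = ∑ i ∈ range D, f (z + ((i + 1 : ℕ) : ℤ)) := by
      refine Finset.sum_congr rfl fun i _ => ?_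
      congr 1
      push_cast
      ring
    rw [h4]
    rw [h3] at h2
    exact (add_right_cancel h2).symm
  induction z using Int.induction_on with
  | zero => simp
  | succ k ih => rw [step, ih]
  | pred k ih =>
    rw [← ih, ← step (-(k : ℤ) - 1)]
    refine Finset.sum_congr rfl fun i _ => ?_
    congr 1
    ring

private lemma VAR_per2 {χ : ℤ × ℤ → ℂ} {D : ℕ}
    (hχ : ∀ z w : ℤ × ℤ, (D : ℤ) ∣ z.1 - w.1 → (D : ℤ) ∣ z.2 - w.2 → χ z = χ w) (z : ℤ × ℤ) :
    ∑ v ∈ range D ×ˢ range D, χ (z + ((v.1 : ℤ), (v.2 : ℤ))) =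
      ∑ v ∈ range D ×ˢ range D, χ ((v.1 : ℤ), (v.2 : ℤ)) := by
  rw [Finset.sum_product, Finset.sum_product]
  have h1 : ∀ a : ℕ, ∑ b ∈ range D, χ (z + ((a : ℤ), (b : ℤ))) =
      ∑ b ∈ range D, χ (z.1 + a, (b : ℤ)) := by
    intro a
    have := VAR_per (f := fun b => χ (z.1 + a, b)) (D := D)
      (fun x y hxy => hχ _ _ (by simp) hxy) z.2
    refine Eq.trans (Finset.sum_congr rfl fun b _ => ?_) this
    exact congrArg χ (Prod.ext rfl rfl)
  have h2 := VAR_per (f := fun a => ∑ b ∈ range D, χ (a, (b : ℤ))) (D := D)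
    (fun x y hxy => Finset.sum_congr rfl fun b _ => hχ _ _ hxy (by simp)) z.1
  calc _ = ∑ a ∈ range D, ∑ b ∈ range D, χ (z.1 + a, (b : ℤ)) :=
        Finset.sum_congr rfl fun a _ => h1 a
    _ = _ := h2

theorem VAR : VAR_stmt := by
  intro D hD χ hχ1 hχ hχ0 B F hFB
  have hmem : ∀ (R : ℕ) (z : ℤ × ℤ), z ∈ Bx R ↔ |z.1| ≤ R ∧ |z.2| ≤ R := by
    intro R z
    simp only [Bx, Finset.mem_product, Finset.mem_Icc, abs_le]
  have hF : (Function.support F).Finite := by
    refine (Bx B).finite_toSet.subset ?_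
    intro z hz
    exact Finset.mem_coe.2 ((hmem B z).2 (hFB z hz))
  have hzero : ∀ z, z ∉ Bx B → F z = 0 := by
    intro z hz
    by_contra h
    exact hz ((hmem B z).2 (hFB z h))
  -- the variation
  have hVa : Va F B = VAR_T F (1, 0) + VAR_T F (0, 1) := by
    unfold Va VAR_T
    rw [Finset.sum_add_distrib]
    have hbig : ∀ z : ℤ × ℤ, z ∉ Bx (B + 1) → z ∉ Bx B ∧ z + (1, 0) ∉ Bx B ∧ z + (0, 1) ∉ Bx B := by
      intro z hz
      rw [hmem] at hz
      simp only [hmem, Prod.fst_add, Prod.snd_add, add_zero]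
      push_cast at hz
      refine ⟨fun h => hz ⟨?_, ?_⟩, fun h => hz ⟨?_, ?_⟩, fun h => hz ⟨?_, ?_⟩⟩ <;>
        simp only [abs_le] at h ⊢ <;> constructor <;> linarith [h.1.1, h.1.2, h.2.1, h.2.2]
    congr 1
    · rw [tsum_eq_sum (s := Bx (B + 1))]
      · refine Finset.sum_congr rfl fun z _ => ?_
        have : z + ((1 : ℤ), (0 : ℤ)) = (z.1 + 1, z.2) := by ext <;> simp
        rw [this]
      · intro z hz
        obtain ⟨h1, h2, h3⟩ := hbig z hz
        rw [hzero _ h1, hzero _ h2, sub_zero, norm_zero]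
    · rw [tsum_eq_sum (s := Bx (B + 1))]
      · refine Finset.sum_congr rfl fun z _ => ?_
        have : z + ((0 : ℤ), (1 : ℤ)) = (z.1, z.2 + 1) := by ext <;> simp
        rw [this]
      · intro z hz
        obtain ⟨h1, h2, h3⟩ := hbig z hz
        rw [hzero _ h1, hzero _ h3, sub_zero, norm_zero]
  -- the shifts
  have hT : ∀ v : ℕ × ℕ, v ∈ range D ×ˢ range D →
      VAR_T F ((v.1 : ℤ), (v.2 : ℤ)) ≤ D * Va F B := by
    intro v hv
    rw [Finset.mem_product, Finset.mem_range, Finset.mem_range] at hv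
    have e : (((v.1 : ℤ), (v.2 : ℤ)) : ℤ × ℤ) = v.1 • ((1 : ℤ), (0 : ℤ)) + v.2 • ((0 : ℤ), (1 : ℤ)) := by
      ext <;> simp
    rw [e]
    refine (VAR_T_add hF _ _).trans ?_
    have h1 := VAR_T_nsmul hF (1, 0) v.1
    have h2 := VAR_T_nsmul hF (0, 1) v.2
    have h3 : (v.1 : ℝ) * VAR_T F (1, 0) ≤ D * VAR_T F (1, 0) :=
      mul_le_mul_of_nonneg_right (by exact_mod_cast hv.1.le) (VAR_T_nonneg _ _)
    have h4 : (v.2 : ℝ) * VAR_T F (0, 1) ≤ D * VAR_T F (0, 1) :=
      mul_le_mul_of_nonneg_right (by exact_mod_cast hv.2.le) (VAR_T_nonneg _ _)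
    rw [hVa]
    linarith
  -- the sum
  have hχF : ∀ v : ℤ × ℤ, Summable fun z => χ (z + v) * F (z + v) := by
    intro v
    apply summable_of_hasFiniteSupport
    refine (VAR_shift hF v).subset ?_
    intro z hz
    simp only [Function.mem_support] at hz ⊢
    exact right_ne_zero_of_mul hz
  have hχF0 : ∀ v : ℤ × ℤ, Summable fun z => χ (z + v) * F z := by
    intro v
    apply summable_of_hasFiniteSupport
    refine hF.subset ?_
    intro z hz
    simp only [Function.mem_support] at hz ⊢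
    exact right_ne_zero_of_mul hz
  set S : ℂ := ∑ z ∈ Bx B, χ z * F z with hS
  have hS1 : ∀ v : ℤ × ℤ, ∑' z, χ (z + v) * F (z + v) = S := by
    intro v
    refine ((Equiv.addRight v).tsum_eq fun z => χ z * F z).trans ?_
    rw [hS, tsum_eq_sum]
    intro z hz
    rw [hzero z hz, mul_zero]
  have hS2 : ∑ v ∈ range D ×ˢ range D, ∑' z, χ (z + ((v.1 : ℤ), (v.2 : ℤ))) * F z = 0 := by
    rw [← Summable.tsum_finsetSum (fun v _ => hχF0 _)]
    rw [show (fun z => ∑ v ∈ range D ×ˢ range D, χ (z + ((v.1 : ℤ), (v.2 : ℤ))) * F z) = fun _ => 0 from ?_]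
    · exact tsum_zero
    · funext z
      rw [← Finset.sum_mul, VAR_per2 hχ z, hχ0, zero_mul]
  have hS3 : ((D : ℂ) ^ 2) * S = ∑ v ∈ range D ×ˢ range D,
      ∑' z, (χ (z + ((v.1 : ℤ), (v.2 : ℤ))) * (F (z + ((v.1 : ℤ), (v.2 : ℤ))) - F z)) := by
    have h1 : ∑ v ∈ range D ×ˢ range D, ∑' z, χ (z + ((v.1 : ℤ), (v.2 : ℤ))) * F (z + ((v.1 : ℤ), (v.2 : ℤ)))
        = ((D : ℂ) ^ 2) * S := by
      rw [Finset.sum_congr rfl fun v _ => hS1 _, Finset.sum_const, Finset.card_product, Finset.card_range,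
        nsmul_eq_mul]
      push_cast
      ring
    rw [← h1, ← sub_zero (∑ v ∈ range D ×ˢ range D, ∑' z, χ (z + ((v.1 : ℤ), (v.2 : ℤ))) *
      F (z + ((v.1 : ℤ), (v.2 : ℤ)))), ← hS2, ← Finset.sum_sub_distrib]
    refine Finset.sum_congr rfl fun v _ => ?_
    rw [← (hχF _).tsum_sub (hχF0 _)]
    refine tsum_congr fun z => ?_
    ring
  have hS4 : (D : ℝ) ^ 2 * ‖S‖ ≤ (D : ℝ) ^ 2 * (D * Va F B) := by
    have h1 : (D : ℝ) ^ 2 * ‖S‖ = ‖((D : ℂ) ^ 2) * S‖ := by
      rw [norm_mul, norm_pow, Complex.norm_natCast]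
    rw [h1, hS3]
    refine (norm_sum_le _ _).trans ?_
    have h2 : ∀ v ∈ range D ×ˢ range D,
        ‖∑' z, (χ (z + ((v.1 : ℤ), (v.2 : ℤ))) * (F (z + ((v.1 : ℤ), (v.2 : ℤ))) - F z))‖ ≤ D * Va F B := by
      intro v hv
      have hsum := VAR_sum (VAR_sub (VAR_shift hF ((v.1 : ℤ), (v.2 : ℤ))) hF)
      refine le_trans ?_ (hT v hv)
      refine tsum_of_norm_bounded hsum.hasSum ?_
      intro z
      rw [norm_mul]
      exact mul_le_of_le_one_left (norm_nonneg _) (hχ1 _)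
    refine (Finset.sum_le_sum h2).trans (le_of_eq ?_)
    rw [Finset.sum_const, Finset.card_product, Finset.card_range, nsmul_eq_mul]
    push_cast
    ring
  have hD1 : (1 : ℝ) ≤ D := by exact_mod_cast hD
  have hVa0 : 0 ≤ Va F B := by
    rw [hVa]
    exact add_nonneg (VAR_T_nonneg _ _) (VAR_T_nonneg _ _)
  have h5 : ‖S‖ ≤ D * Va F B := le_of_mul_le_mul_left hS4 (by positivity)
  refine h5.trans ?_
  apply mul_le_mul_of_nonneg_right _ hVa0
  calc (D : ℝ) = (D : ℝ) ^ 1 := (pow_one _).symm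
    _ ≤ (D : ℝ) ^ 3 := pow_le_pow_right₀ hD1 (by norm_num)

end Pool.Agent.HK
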